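import Mathlib
import Pool.Agent.Helper9.FA.ZDefs
import Pool.Agent.Helper9.TB.Gen
import Pool.Agent.Helper9.Unif

/-!
# The products of sines and the Lobachevsky function
-/

namespace Pool.Agent.Helper9.FA

open Finset Filter Topology MeasureTheory
open Pool.Agent.Helper9.Kashaev Pool.Agent.Helper9.TG
open Pool.Agent.Helper9 (TB.lam TB.bb TB.sf TB.mu)

private lemma sfasy_log {N n : ℕ} (hn : n < N) : Real.log (TB.sf N n) = logS N n := by
  unfold TB.sf logS
  have h : ∀ t ∈ range n, TB.sb (((t + 1 : ℕ) : ℝ) / N) = sn N ((t : ℤ) + 1) := by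
    intro t _
    unfold TB.sb sn
    congr 2
    push_cast
    ring
  rw [Finset.prod_congr rfl h, Real.log_prod]
  intro t ht
  rw [mem_range] at ht
  exact (sn_pos (by omega) (by omega)).ne'

/-- translation on the increasing part -/
private lemma sfasy_shift {x h : ℝ} (hx : 0 ≤ x) (hh : 0 ≤ h) (hy : x + h ≤ Real.pi / 2) :
    HH h ≤ HH (x + h) - HH x := by
  have h1 : HH (x + h) - HH x = ∫ t in (0 : ℝ)..h, Real.log |2 * Real.sin (t + x)| := by
    rw [intervalIntegral.integral_comp_add_right (fun t => Real.log |2 * Real.sin t|) x]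
    unfold HH
    rw [intervalIntegral.integral_interval_sub_left (integrable_h _ _) (integrable_h _ _),
      zero_add, add_comm h x]
  rw [h1]
  unfold HH
  apply intervalIntegral.integral_mono_on_of_le_Ioo hh (integrable_h 0 h)
  · have := (integrable_h (0 + x) (h + x)).comp_add_right x
    simpa using this
  · intro t ht
    have hpi := Real.pi_pos
    have h2 : 0 < Real.sin t := Real.sin_pos_of_pos_of_lt_pi ht.1 (by linarith [ht.2])
    have h3 : Real.sin t ≤ Real.sin (t + x) :=
      Real.sin_le_sin_of_le_of_le_pi_div_two (by linarith [ht.1]) (by linarith [ht.2])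
        (by linarith)
    rw [abs_of_pos (by linarith), abs_of_pos (by linarith)]
    exact Real.log_le_log (by linarith) (by linarith)

private lemma sfasy_up {x h : ℝ} (hh : 0 ≤ h) : HH (x + h) - HH x ≤ h * Real.log 2 := by
  have h1 : HH (x + h) - HH x = ∫ t in x..(x + h), Real.log |2 * Real.sin t| := by
    unfold HH
    rw [intervalIntegral.integral_interval_sub_left (integrable_h _ _) (integrable_h _ _)]
  rw [h1]
  have h2 := intervalIntegral.integral_mono_on (show x ≤ x + h by linarith)
    (integrable_h x (x + h)) (intervalIntegrable_const (c := Real.log 2))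
    (fun t _ => log_two_sin_le t)
  rw [intervalIntegral.integral_const, smul_eq_mul] at h2
  linarith

/-- modulus of continuity at scale `π / N` -/
private lemma sfasy_mod {N : ℕ} (hN : 2 ≤ N) {x y : ℝ} (hx : 0 ≤ x) (hxy : x ≤ y)
    (hy : y ≤ Real.pi / 2) (hh : y - x ≤ Real.pi / N) :
    |N / Real.pi * (HH y - HH x)| ≤ 1 + Real.log N := by
  have hNR : (2 : ℝ) ≤ N := by exact_mod_cast hN
  have hpi := Real.pi_pos
  have hlog2 : Real.log 2 ≤ Real.log N := Real.log_le_log (by norm_num) hNR
  have hlog0 : 0 ≤ Real.log 2 := Real.log_nonneg (by norm_num)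
  have hk : 0 < N / Real.pi := by positivity
  obtain ⟨h, rfl⟩ : ∃ h, y = x + h := ⟨y - x, by ring⟩
  have hh0 : 0 ≤ h := by linarith
  have hh1 : h ≤ Real.pi / N := by linarith
  -- the scaled length
  obtain ⟨s, hs⟩ : ∃ s, s = N / Real.pi * h := ⟨_, rfl⟩
  have hs0 : 0 ≤ s := by rw [hs]; positivity
  have hs1 : s ≤ 1 := by
    rw [hs]
    calc N / Real.pi * h ≤ N / Real.pi * (Real.pi / N) := mul_le_mul_of_nonneg_left hh1 hk.le
      _ = 1 := by field_simp
  rw [abs_le]
  constructor
  · rcases hh0.eq_or_lt with h0 | h0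
    · rw [← h0, add_zero, sub_self, mul_zero]
      linarith
    · have h1 := sfasy_shift hx hh0 hy
      have h2 := HH_lower h0 (by linarith : h ≤ Real.pi / 2)
      have h3 : N / Real.pi * (h * Real.log (4 / Real.pi * h) - h) ≤
          N / Real.pi * (HH (x + h) - HH x) :=
        mul_le_mul_of_nonneg_left (h2.trans h1) hk.le
      refine le_trans ?_ h3
      have hs0' : 0 < s := by rw [hs]; positivity
      have e1 : 4 / Real.pi * h = 4 * s / N := by rw [hs]; field_simp
      have e2 : N / Real.pi * (h * Real.log (4 / Real.pi * h) - h) =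
          s * Real.log (4 * s) - s * Real.log N - s := by
        rw [e1, Real.log_div (by positivity) (by positivity), hs]
        ring
      rw [e2]
      have h4 : 1 - (4 * s)⁻¹ ≤ Real.log (4 * s) := Real.one_sub_inv_le_log_of_pos (by positivity)
      have h5 : s * (1 - (4 * s)⁻¹) ≤ s * Real.log (4 * s) :=
        mul_le_mul_of_nonneg_left h4 hs0
      have h6 : s * (1 - (4 * s)⁻¹) = s - 1 / 4 := by field_simp
      have h7 : s * Real.log N ≤ Real.log N := by
        have : 0 ≤ Real.log N := by linarith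
        nlinarith
      linarith
  · have h1 := mul_le_mul_of_nonneg_left (sfasy_up (x := x) hh0) hk.le
    have e : N / Real.pi * (h * Real.log 2) = s * Real.log 2 := by rw [hs]; ring
    rw [e] at h1
    nlinarith

theorem sf_asy : ∃ C : ℝ, 0 < C ∧ ∀ N : ℕ, 2 ≤ N → ∀ n : ℕ, n < N →
    |Real.log (TB.sf N n) + N / Real.pi * lobachevsky (Real.pi * n / (N - 1))| ≤
      C * (1 + Real.log N) := by
  refine ⟨5, by norm_num, ?_⟩
  intro N hN n hn
  have hNR : (2 : ℝ) ≤ N := by exact_mod_cast hN
  have hpi := Real.pi_pos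
  have hN1 : (0 : ℝ) < (N : ℝ) - 1 := by linarith
  have hlogN : 0 ≤ Real.log N := Real.log_nonneg (by linarith)
  rw [sfasy_log hn, HH_loba]
  have h1 := unif hN hn
  have hnR : (n : ℝ) ≤ (N : ℝ) - 1 := by
    have : ((n + 1 : ℕ) : ℝ) ≤ N := by exact_mod_cast hn
    push_cast at this
    linarith
  have hn0 : (0 : ℝ) ≤ n := Nat.cast_nonneg n
  -- the two points
  obtain ⟨x, hx⟩ : ∃ x, x = Real.pi / N * (n : ℝ) := ⟨_, rfl⟩
  obtain ⟨y, hy⟩ : ∃ y, y = Real.pi * n / ((N : ℝ) - 1) := ⟨_, rfl⟩
  have hx0 : 0 ≤ x := by rw [hx]; positivity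
  have hdiff : y - x = Real.pi / N * (n / ((N : ℝ) - 1)) := by
    rw [hx, hy]; field_simp; ring
  have hq0 : 0 ≤ (n : ℝ) / ((N : ℝ) - 1) := by positivity
  have hq1 : (n : ℝ) / ((N : ℝ) - 1) ≤ 1 := by rw [div_le_one hN1]; exact hnR
  have hxy : x ≤ y := by
    have : 0 ≤ y - x := by rw [hdiff]; positivity
    linarith
  have hyx : y - x ≤ Real.pi / N := by
    rw [hdiff]
    calc Real.pi / N * (n / ((N : ℝ) - 1)) ≤ Real.pi / N * 1 :=
          mul_le_mul_of_nonneg_left hq1 (by positivity)
      _ = Real.pi / N := mul_one _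
  have h2 : |N / Real.pi * (HH y - HH x)| ≤ 1 + Real.log N := by
    by_cases hc : 2 * n ≤ N - 1
    · apply sfasy_mod hN hx0 hxy _ hyx
      rw [hy, div_le_iff₀ hN1]
      have h3 : (2 : ℝ) * n ≤ (N : ℝ) - 1 := by
        have : ((2 * n + 1 : ℕ) : ℝ) ≤ N := by exact_mod_cast (by omega : 2 * n + 1 ≤ N)
        push_cast at this
        linarith
      nlinarith
    · have h3 : (N : ℝ) ≤ 2 * n := by exact_mod_cast (by omega : N ≤ 2 * n)
      have h4 := sfasy_mod hN (x := Real.pi - y) (y := Real.pi - x) (by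
          have : y ≤ Real.pi := by
            rw [hy, div_le_iff₀ hN1]
            nlinarith
          linarith) (by linarith) (by
          have : Real.pi / 2 ≤ x := by
            rw [hx, div_mul_eq_mul_div, div_le_div_iff₀ (by norm_num) (by linarith)]
            nlinarith
          linarith) (by linarith)
      rw [HH_refl, HH_refl] at h4
      have e : -HH x - -HH y = HH y - HH x := by ring
      rwa [e] at h4
  rw [← hx] at h1
  rw [← hy]
  have h3 := abs_le.mp h1
  have h4 := abs_le.mp h2
  rw [mul_sub] at h4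
  rw [mul_neg, abs_le]
  constructor
  · linarith
  · linarith

end Pool.Agent.Helper9.FA
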