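import Mathlib
import Pool.Agent.Helper9.FA.ZDefs

/-!
# From two strands to `n` strands
-/

namespace Pool.Agent.Helper9.FA

open Finset
open Pool.Agent.Helper9.Kashaev Pool.Agent.Helper9.TG

private lemma local_sh_zero (D : Diagram) : sh 0 D = D := by
  simp [sh]

private lemma local_sh_succ (k : ℕ) (D : Diagram) : sh (k + 1) D = sh 1 (sh k D) := by
  simp [sh, List.map_map, Function.comp_def, Nat.add_assoc]

private lemma local_wf_add {n m : ℕ} {D : Diagram} (h : wf n D m) (j : ℕ) :
    wf (n + j) D (m + j) := by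
  induction j with
  | zero => exact h
  | succ j ih => exact r3_wf_right ih

private lemma local_Sup_app {N n : ℕ} {f : List ℕ → ℂ} (hf : Sup N (n + 2) f) {w : List ℕ}
    (hw : w.length = n) : Sup N 2 (fun u => f (u ++ w)) := by
  intro v hv
  apply hf
  rintro ⟨h1, h2⟩
  apply hv
  rw [List.length_append, hw] at h1
  exact ⟨by omega, fun x hx => h2 x (List.mem_append_left _ hx)⟩

/-- a tangle with coefficients `w`, at position `k` -/
theorem Coef.slice {N : ℕ} (hN : 2 ≤ N) {D : Diagram} (hD : wf 2 D 2) {w : ℕ → ℂ} (h : Coef N D w)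
    {k n : ℕ} (hk : k + 2 ≤ n) {f : List ℕ → ℂ} (hf : Sup N n f) :
    RT N (sh k D) f = fun u => ∑ m ∈ range N, w m * UK N k m f u := by
  induction k generalizing n f with
  | zero =>
    obtain ⟨n, rfl⟩ : ∃ n', n = n' + 2 := ⟨n - 2, by omega⟩
    rw [local_sh_zero]
    funext u
    by_cases hu : u.length = n + 2 ∧ ∀ x ∈ u, x < N
    · obtain ⟨hl, -⟩ := hu
      rcases u with _ | ⟨a, _ | ⟨b, w'⟩⟩
      · simp at hl
      · simp at hl
      have hw' : w'.length = n := by simpa using hl
      have h1 := RT_right (N := N) hD f [a, b] w' rfl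
      have e1 : [a, b] ++ w' = a :: b :: w' := rfl
      rw [e1] at h1
      rw [h1, h _ (local_Sup_app hf hw') a b]
      apply sum_congr rfl
      intro m _
      simp only [UK]
      rw [r3_nC_right N m f w']
    · rw [RT_Sup (show wf (n + 2) D (n + 2) by
        have := local_wf_add hD n
        rwa [Nat.add_comm 2 n] at this) hf u hu]
      symm
      apply sum_eq_zero
      intro m _
      simp only [UK]
      rw [r3_nC_Sup hf u hu, mul_zero]
  | succ k ih =>
    obtain ⟨n, rfl⟩ : ∃ n', n = n' + 1 := ⟨n - 1, by omega⟩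
    funext u
    rcases u with _ | ⟨x, u⟩
    · have hwf : wf (n + 1) (sh (k + 1) D) (n + 1) := by
        have h1 := wf_sh hD (k + 1)
        have h2 := local_wf_add h1 (n + 1 - (2 + (k + 1)))
        rwa [show 2 + (k + 1) + (n + 1 - (2 + (k + 1))) = n + 1 by omega] at h2
      rw [RT_Sup hwf hf [] (fun hh => by simp at hh)]
      symm
      apply sum_eq_zero
      intro m _
      simp only [UK, mul_zero]
    · rw [local_sh_succ, RT_left, ih (by omega) (hf.cons x)]
      rfl

/-- any tangle has coefficients -/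
theorem exists_coef {N : ℕ} (hN : 2 ≤ N) {D : Diagram} (hD : wf 2 D 2) : ∃ w, Coef N D w := by
  obtain ⟨κ, hκ, h1⟩ := crd_cup1 hN
  let w : Fin N → ℂ := κ⁻¹ • crd N (RT N D (Kashaev.slice N .cup 1 (ket [0])))
  have hw : crd N (RT N D (Kashaev.slice N .cup 1 (ket [0]))) = κ • w := by
    simp only [w]
    rw [smul_smul, mul_inv_cancel₀ hκ, one_smul]
  refine ⟨fun m => if hm : m < N then w ⟨m, hm⟩ else 0, ?_⟩
  intro f hf a b
  rw [r3_gen2 hN hD h1 hw hf a b, r3_L_apply, Finset.sum_range]
  apply sum_congr rfl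
  intro m _
  show w m * _ = (if hm : (m : ℕ) < N then w ⟨m, hm⟩ else 0) * _
  rw [dif_pos m.2]

end Pool.Agent.Helper9.FA
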